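import Pool.Agent.helper62.DP8.Spec

set_option autoImplicit false

namespace Pool.Agent.helper62.DP8

theorem NBS_new (s : St) (t : Tb) (x : ℕ) : ∀ k, s.new1 x ∈ nbrs s t x k := by
  intro k
  induction k with
  | zero => simp [nbrs]
  | succ k ih =>
    unfold nbrs
    cases h : (tb (ent t.P x) k && !(tb (ent t.R x) k)) with
    | true => exact List.mem_cons_of_mem _ ih
    | false => exact ih

theorem NBS_add (s : St) (t : Tb) (x y : ℕ) (hP : tb (ent t.P x) y = true) (hR : tb (ent t.R x) y = false) :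
    ∀ k, y < k → s.add x y ∈ nbrs s t x k := by
  intro k
  induction k with
  | zero => intro h; omega
  | succ k ih =>
    intro hk
    unfold nbrs
    rcases Nat.lt_succ_iff_lt_or_eq.1 hk with h1 | h1
    · cases h : (tb (ent t.P x) k && !(tb (ent t.R x) k)) with
      | true => exact List.mem_cons_of_mem _ (ih h1)
      | false => exact ih h1
    · subst h1
      rw [hP, hR]
      exact List.mem_cons_self

theorem NBS (hTDD : TDD_stmt) (hSPP : SPP_stmt) : NBS_stmt := by
  intro V G g s v hg hC hG hr hn x hx hD2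
  obtain ⟨_, h2, h3⟩ := hTDD V G g s v hC hr
  obtain ⟨U, hU, hU2⟩ := h3 x hx
  have hD := ((h2 x).1 hD2).2
  have hpos : 0 < U.card := by omega
  obtain ⟨z, hz⟩ := Finset.card_pos.1 hpos
  obtain ⟨hadj, hne⟩ := (hU2 z).1 hz
  by_cases hc : ∃ y < s.n, z = v y
  · obtain ⟨y, hy, hzy⟩ := hc
    have hP := hSPP V G g s v hg hC hG hr x y hx hy (hzy ▸ hadj)
    have hR : tb (ent (tbl g s).R x) y = false := by
      cases h : tb (ent (tbl g s).R x) y with
      | false => rfl
      | true => exact absurd hzy (hne y h)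
    refine ⟨s.add x y, NBS_add s (tbl g s) x y hP hR s.n hy, v, ?_⟩
    refine ⟨hr.n32, hr.inj, ?_, hr.wfNA, hr.wfNR⟩
    intro e he
    rcases List.mem_cons.1 he with h | h
    · subst h
      exact ⟨hx, hy, hzy ▸ hadj⟩
    · exact hr.wfA e h
  · have hc2 : ∀ y < s.n, z ≠ v y := fun y hy h => hc ⟨y, hy, h⟩
    have hlt : ∀ y, y < s.n → Function.update v s.n z y = v y := fun y hy =>
      Function.update_of_ne (Nat.ne_of_lt hy) _ _
    have heq : Function.update v s.n z s.n = z := Function.update_self _ _ _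
    refine ⟨s.new1 x, NBS_new s (tbl g s) x s.n, Function.update v s.n z, ?_⟩
    refine ⟨?_, ?_, ?_, ?_, ?_⟩
    · show s.n + 1 ≤ 32
      omega
    · intro a ha b hb hab
      have ha' : a < s.n + 1 := ha
      have hb' : b < s.n + 1 := hb
      rcases Nat.lt_succ_iff_lt_or_eq.1 ha' with h1 | h1 <;> rcases Nat.lt_succ_iff_lt_or_eq.1 hb' with h4 | h4
      · rw [hlt a h1, hlt b h4] at hab
        exact hr.inj a h1 b h4 hab
      · rw [hlt a h1, h4, heq] at hab
        exact absurd hab.symm (hc2 a h1)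
      · rw [h1, heq, hlt b h4] at hab
        exact absurd hab (hc2 b h4)
      · rw [h1, h4]
    · intro e he
      rcases List.mem_cons.1 he with h | h
      · subst h
        refine ⟨Nat.lt_succ_of_lt hx, Nat.lt_succ_self _, ?_⟩
        show G.Adj (Function.update v s.n z x) (Function.update v s.n z s.n)
        rw [hlt x hx, heq]
        exact hadj
      · obtain ⟨h4, h5, h6⟩ := hr.wfA e h
        exact ⟨Nat.lt_succ_of_lt h4, Nat.lt_succ_of_lt h5, by rw [hlt _ h4, hlt _ h5]; exact h6⟩
    · intro e he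
      obtain ⟨h4, h5, h6⟩ := hr.wfNA e he
      exact ⟨Nat.lt_succ_of_lt h4, Nat.lt_succ_of_lt h5, by rw [hlt _ h4, hlt _ h5]; exact h6⟩
    · intro e he
      obtain ⟨h4, h5, h6, h7⟩ := hr.wfNR e he
      exact ⟨Nat.lt_succ_of_lt h4, Nat.lt_succ_of_lt h5, h6, by rw [hlt _ h4, hlt _ h5]; exact h7⟩

end Pool.Agent.helper62.DP8
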